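import Pool.Agent.H.MP_02a511_an.C

namespace Pool.Agent.Results.MP_02a511_an.Yes
open MeasureTheory Set

noncomputable abbrev L2 : Type := Lp ℝ 2 (volume : Measure ℝ)

/-- The function representing a class. -/
noncomputable def fn (f : L2) : ℝ → ℝ := f

/-- The dyadic interval `[k 2^j, (k+1) 2^j)`. -/
def I (j k : ℤ) : Set ℝ := Ico (k * 2 ^ j) ((k + 1) * 2 ^ j)

/-- The Haar function of the dyadic interval `I j k`. -/
noncomputable def haar (j k : ℤ) (x : ℝ) : ℝ :=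
  (√(2 ^ j))⁻¹ * ((I (j - 1) (2 * k + 1)).indicator 1 x - (I (j - 1) (2 * k)).indicator 1 x)

/-- `T h_{I+} = h_{I-}` and `T h_{I-} = - h_{I+}` for every dyadic `I`. -/
def Shift (T : L2 → L2) : Prop :=
  ∀ (j k : ℤ) (p m : L2), fn p =ᵐ[volume] haar j (2 * k + 1) → fn m =ᵐ[volume] haar j (2 * k) →
    T p = m ∧ T m = -p

/-- Bounded linear operators that are Haar shifts. -/
def IsHaarShift (T : L2 → L2) : Prop := (∃ S : L2 →L[ℝ] L2, ⇑S = T) ∧ Shift T

theorem hae (j k : ℤ) : fn (H.MP_02a511_an.h j k) =ᵐ[volume] haar j k := by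
  filter_upwards [Lp.coeFn_smul (√(2 ^ j))⁻¹ (H.MP_02a511_an.ind (j - 1) (2 * k + 1) -
    H.MP_02a511_an.ind (j - 1) (2 * k)), Lp.coeFn_sub (H.MP_02a511_an.ind (j - 1) (2 * k + 1))
    (H.MP_02a511_an.ind (j - 1) (2 * k)), indicatorConstLp_coeFn (p := 2)
    (hs := H.MP_02a511_an.I_meas (j - 1) (2 * k + 1)) (hμs := H.MP_02a511_an.I_fin _ _) (c := (1 : ℝ)),
    indicatorConstLp_coeFn (p := 2) (hs := H.MP_02a511_an.I_meas (j - 1) (2 * k))
    (hμs := H.MP_02a511_an.I_fin _ _) (c := (1 : ℝ))] with x h1 h2 h3 h4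
  refine h1.trans ?_
  rw [Pi.smul_apply, h2, Pi.sub_apply, H.MP_02a511_an.ind, H.MP_02a511_an.ind, h3, h4]
  rfl

theorem result : (∃ T, IsHaarShift T) ∧ ∃ η : ℝ, 0 < η ∧ η < 1 ∧ ∀ T, IsHaarShift T →
    ∀ V : Set ℝ, NullMeasurableSet V volume → 0 < volume V → volume V < ⊤ →
      ∀ f : L2, fn f =ᵐ[volume] V.indicator 1 → ∫ x in V, fn (T f) x ^ 2 ≤ η * volume.real V := by
  constructor
  · obtain ⟨U, hU⟩ := H.MP_02a511_an.exT
    refine ⟨U, ⟨U.toContinuousLinearEquiv.toContinuousLinearMap, rfl⟩, fun j k p m hp hm => ?_⟩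
    rw [show p = _ from Lp.ext (hp.trans (hae _ _).symm), show m = _ from Lp.ext (hm.trans (hae _ _).symm)]
    exact hU j k
  · have := Real.exp_le_one_iff.2 (show (-42 : ℝ) ≤ 0 by norm_num)
    have := Real.exp_pos (-42)
    refine ⟨1 - Real.exp (-42) / 40, by linarith, by linarith, ?_⟩
    rintro _ ⟨⟨S, rfl⟩, hS⟩ V mV - fV f hf
    obtain ⟨W, mW, hW⟩ := mV
    rw [setIntegral_congr_set hW, measureReal_congr hW]
    exact H.MP_02a511_an.main S (fun j k => hS j k _ _ (hae _ _) (hae _ _)) W mW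
      (by rw [← measure_congr hW]; exact fV.ne) f (hf.trans (indicator_ae_eq_of_ae_eq_set hW))

end Pool.Agent.Results.MP_02a511_an.Yes
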